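import Pool.Agent.K1H36.LK.Psi

/-!
# Task T12 of MP_5b16f0_gt: the operators (adding an open strand, closing an open strand)
-/

set_option autoImplicit false

noncomputable section

namespace Pool.Agent.K1H43.LK

open Pool.Agent.K1H35.LK
open Pool.Agent.K1H36.LK

/-! ## Permutations -/

theorem sc_step {q : Equiv.Perm ℕ} {R : ℕ → ℕ → Prop} (hr : Equivalence R) (h : ∀ a, R a (q a))
    {a b : ℕ} (hab : q.SameCycle a b) : R a b := by
  obtain ⟨t, rfl⟩ := hab
  induction t using Int.induction_on with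
  | zero => exact hr.refl a
  | succ t ih =>
    have e : (q ^ ((t : ℤ) + 1)) a = q ((q ^ (t : ℤ)) a) := by
      rw [add_comm, zpow_add, zpow_one]; rfl
    rw [e]
    exact hr.trans ih (h _)
  | pred t ih =>
    have e : q ((q ^ (-(t : ℤ) - 1)) a) = (q ^ (-(t : ℤ))) a := by
      have : (q ^ (-(t : ℤ))) = q * q ^ (-(t : ℤ) - 1) := by
        rw [← zpow_one_add]
        congr 1
        ring
      rw [this]; rfl
    have h1 := h ((q ^ (-(t : ℤ) - 1)) a)
    rw [e] at h1
    exact hr.trans ih (hr.symm h1)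

theorem sc_equiv (q : Equiv.Perm ℕ) : Equivalence (fun a b => q.SameCycle a b) :=
  ⟨fun a => Equiv.Perm.SameCycle.refl q a, fun h => h.symm, fun h h' => h.trans h'⟩

theorem sc_apply (q : Equiv.Perm ℕ) (a : ℕ) : q.SameCycle a (q a) := ⟨1, by simp⟩

/-- positions are preserved -/
theorem pm_lt_iff {N : ℕ} {b : Br} (hb : b ∈ BN N) : ∀ a, pm b a < N ↔ a < N := by
  refine bn_ind (P := fun b => ∀ a, pm b a < N ↔ a < N) ?_ ?_ ?_ ?_ b hb
  · intro i hi a
    rw [pm_s, Equiv.swap_apply_def]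
    split_ifs <;> omega
  · intro a
    simp
  · intro x y hx hy a
    rw [map_mul, Equiv.Perm.mul_apply, hx, hy]
  · intro x hx a
    have h1 := hx (pm x⁻¹ a)
    have h2 : pm x (pm x⁻¹ a) = a := by
      rw [← Equiv.Perm.mul_apply, ← map_mul, mul_inv_cancel, map_one]
      rfl
    rw [h2] at h1
    exact h1.symm

theorem exists_return {p : Equiv.Perm ℕ} {N : ℕ} (hp : ∀ a, a < N → p a < N) {i : ℕ} (hi : i < N) :
    ∃ t : ℕ, 0 < t ∧ (p ^ t) i = i := by
  have h1 : ∀ t : ℕ, (p ^ t) i < N := by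
    intro t
    induction t with
    | zero => simpa using hi
    | succ t ih =>
      rw [pow_succ', Equiv.Perm.mul_apply]
      exact hp _ ih
  obtain ⟨r, r', hne, h2⟩ := Finite.exists_ne_map_eq_of_infinite
    (fun t : ℕ => (⟨(p ^ t) i, h1 t⟩ : Fin N))
  have h3 : (p ^ r) i = (p ^ r') i := by simpa using h2
  have key : ∀ r r' : ℕ, r < r' → (p ^ r) i = (p ^ r') i → ∃ t : ℕ, 0 < t ∧ (p ^ t) i = i := by
    intro r r' h h3
    refine ⟨r' - r, by omega, ?_⟩
    have h4 : (p ^ r') i = (p ^ r) ((p ^ (r' - r)) i) := by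
      rw [← Equiv.Perm.mul_apply, ← pow_add]
      congr 2
      omega
    rw [h4] at h3
    exact ((p ^ r).injective h3).symm
  rcases lt_or_gt_of_ne hne with h | h
  · exact key r r' h h3
  · exact key r' r h h3.symm

/-- closing up joins the cycles of `i` and `m` -/
theorem merge {p : Equiv.Perm ℕ} {N : ℕ} (hp : ∀ a, a < N → p a < N) {i m : ℕ} (hi : i < N)
    (him : ¬ p.SameCycle i m) : (p * Equiv.swap i m).SameCycle i m := by
  set q := p * Equiv.swap i m with hq
  have hne : i ≠ m := fun h => him (h ▸ Equiv.Perm.SameCycle.refl p i)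
  obtain ⟨t, ht, htm⟩ : ∃ t, (0 < t ∧ (p ^ t) i = i) ∧ ∀ r, r < t → ¬ (0 < r ∧ (p ^ r) i = i) := by
    classical
    have := exists_return hp hi
    exact ⟨Nat.find this, Nat.find_spec this, fun r hr => Nat.find_min this hr⟩
  have h1 : ∀ r, r < t → (q ^ (r + 1)) m = (p ^ (r + 1)) i := by
    intro r
    induction r with
    | zero =>
      intro _
      rw [pow_one, pow_one, hq, Equiv.Perm.mul_apply, Equiv.swap_apply_right]
    | succ r ih =>
      intro hr
      rw [pow_succ' q, Equiv.Perm.mul_apply, ih (by omega), pow_succ' p (r + 1),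
        Equiv.Perm.mul_apply]
      change p (Equiv.swap i m ((p ^ (r + 1)) i)) = p ((p ^ (r + 1)) i)
      congr 1
      apply Equiv.swap_apply_of_ne_of_ne
      · intro h
        exact htm (r + 1) hr ⟨by omega, h⟩
      · intro h
        exact him ⟨((r + 1 : ℕ) : ℤ), by rw [zpow_natCast]; exact h⟩
  have h2 := h1 (t - 1) (by omega)
  rw [Nat.sub_add_cancel (by omega), ht.2] at h2
  exact (Equiv.Perm.SameCycle.symm ⟨((t : ℕ) : ℤ), by rw [zpow_natCast]; exact h2⟩)

theorem sc_mul_swap {p : Equiv.Perm ℕ} {i m : ℕ} (h : (p * Equiv.swap i m).SameCycle i m) {a b : ℕ}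
    (hab : p.SameCycle a b) : (p * Equiv.swap i m).SameCycle a b := by
  refine sc_step (sc_equiv _) ?_ hab
  intro a
  have h1 := sc_apply (p * Equiv.swap i m) (Equiv.swap i m a)
  have h2 : (p * Equiv.swap i m) (Equiv.swap i m a) = p a := by
    rw [Equiv.Perm.mul_apply, Equiv.swap_apply_self]
  rw [h2] at h1
  refine Equiv.Perm.SameCycle.trans ?_ h1
  by_cases ha : a = i
  · rw [ha, Equiv.swap_apply_left]
    exact h
  · by_cases ha' : a = m
    · rw [ha', Equiv.swap_apply_right]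
      exact h.symm
    · rw [Equiv.swap_apply_of_ne_of_ne ha ha']

theorem sc_mul_swap_inv {p : Equiv.Perm ℕ} {i m a b : ℕ}
    (hab : (p * Equiv.swap i m).SameCycle a b) : p.SameCycle a b ∨
      ((p.SameCycle i a ∨ p.SameCycle m a) ∧ (p.SameCycle i b ∨ p.SameCycle m b)) := by
  refine sc_step (R := fun a b => p.SameCycle a b ∨
      ((p.SameCycle i a ∨ p.SameCycle m a) ∧ (p.SameCycle i b ∨ p.SameCycle m b))) ?_ ?_ hab
  · refine ⟨fun a => Or.inl (Equiv.Perm.SameCycle.refl p a), ?_, ?_⟩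
    · rintro a b (h | ⟨h, h'⟩)
      · exact Or.inl h.symm
      · exact Or.inr ⟨h', h⟩
    · rintro a b c (h | ⟨h, h'⟩) (h1 | ⟨h1, h1'⟩)
      · exact Or.inl (h.trans h1)
      · refine Or.inr ⟨?_, h1'⟩
        rcases h1 with h1 | h1
        · exact Or.inl (h1.trans h.symm)
        · exact Or.inr (h1.trans h.symm)
      · refine Or.inr ⟨h, ?_⟩
        rcases h' with h' | h'
        · exact Or.inl (h'.trans h1)
        · exact Or.inr (h'.trans h1)
      · exact Or.inr ⟨h, h1'⟩
  · intro a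
    by_cases ha : a = i
    · right
      rw [ha, Equiv.Perm.mul_apply, Equiv.swap_apply_left]
      exact ⟨Or.inl (Equiv.Perm.SameCycle.refl p i), Or.inr (sc_apply p m)⟩
    · by_cases ha' : a = m
      · right
        rw [ha', Equiv.Perm.mul_apply, Equiv.swap_apply_right]
        exact ⟨Or.inr (Equiv.Perm.SameCycle.refl p m), Or.inl (sc_apply p i)⟩
      · left
        rw [Equiv.Perm.mul_apply, Equiv.swap_apply_of_ne_of_ne ha ha']
        exact sc_apply p a

theorem ok_swap {p : Equiv.Perm ℕ} {m N i : ℕ} (hp : ∀ a, a < N → p a < N) (hN : m + 1 ≤ N)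
    (hi : i < m) (h : Ok (m + 1) N p) : Ok m N (p * Equiv.swap i m) := by
  have him : ¬ p.SameCycle i m := by
    intro h'
    have := h.2 i (by omega) m (by omega) h'
    omega
  have hm := merge hp (i := i) (m := m) (by omega) him
  constructor
  · intro a ha
    obtain ⟨j, hj, hja⟩ := h.1 a ha
    have h1 := sc_mul_swap hm hja
    by_cases hjm : j = m
    · subst hjm
      exact ⟨i, hi, hm.trans h1⟩
    · exact ⟨j, by omega, h1⟩
  · intro i' hi' j' hj' hs
    rcases sc_mul_swap_inv hs with h1 | ⟨h1, h2⟩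
    · exact h.2 i' (by omega) j' (by omega) h1
    · have key : ∀ a, a < m → (p.SameCycle i a ∨ p.SameCycle m a) → i = a := by
        intro a ha h3
        rcases h3 with h3 | h3
        · exact h.2 i (by omega) a (by omega) h3
        · have := h.2 m (by omega) a (by omega) h3
          omega
      rw [← key i' hi' h1, ← key j' hj' h2]

theorem io_one_inj {m a b : ℕ} (h : io m 1 a = io m 1 b) : a = b := by
  unfold io at h
  split_ifs at h <;> omega

theorem pow_io {p P : Equiv.Perm ℕ} {m : ℕ} (h : ∀ a, P (io m 1 a) = io m 1 (p a)) (t : ℤ) (a : ℕ) :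
    (P ^ t) (io m 1 a) = io m 1 ((p ^ t) a) := by
  induction t using Int.induction_on with
  | zero => simp
  | succ t ih =>
    have e : ∀ q : Equiv.Perm ℕ, ∀ x, (q ^ ((t : ℤ) + 1)) x = q ((q ^ (t : ℤ)) x) := by
      intro q x
      rw [add_comm, zpow_add, zpow_one]; rfl
    rw [e, e, ih, h]
  | pred t ih =>
    have e : ∀ q : Equiv.Perm ℕ, ∀ x, q ((q ^ (-(t : ℤ) - 1)) x) = (q ^ (-(t : ℤ))) x := by
      intro q x
      have : (q ^ (-(t : ℤ))) = q * q ^ (-(t : ℤ) - 1) := by
        rw [← zpow_one_add]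
        congr 1
        ring
      rw [this]; rfl
    apply P.injective
    rw [e, h, e, ih]

theorem ok_iot {p P : Equiv.Perm ℕ} {m N : ℕ} (h : ∀ a, P (io m 1 a) = io m 1 (p a))
    (hm : P m = m) (hmN : m ≤ N) (hok : Ok m N p) : Ok (m + 1) (N + 1) P := by
  have hlt : ∀ a, a < m → io m 1 a = a := fun a ha => if_pos ha
  constructor
  · intro a ha
    rcases lt_trichotomy a m with h1 | h1 | h1
    · obtain ⟨i, hi, t, ht⟩ := hok.1 a (by omega)
      refine ⟨i, by omega, t, ?_⟩
      rw [← hlt i hi, pow_io h, ht, hlt a h1]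
    · exact ⟨m, by omega, h1 ▸ Equiv.Perm.SameCycle.refl P m⟩
    · obtain ⟨i, hi, t, ht⟩ := hok.1 (a - 1) (by omega)
      refine ⟨i, by omega, t, ?_⟩
      rw [← hlt i hi, pow_io h, ht]
      unfold io
      rw [if_neg (by omega)]
      omega
  · intro i hi j hj hs
    have hfix : ∀ a, P.SameCycle m a → a = m := by
      rintro a ⟨t, rfl⟩
      exact Function.IsFixedPt.perm_zpow hm t
    by_cases h1 : i = m
    · subst h1
      exact (hfix j hs).symm
    · by_cases h2 : j = m
      · subst h2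
        exact hfix i hs.symm
      · obtain ⟨t, ht⟩ := hs
        apply hok.2 i (by omega) j (by omega)
        refine ⟨t, io_one_inj (m := m) ?_⟩
        rw [← pow_io h, hlt i (by omega), hlt j (by omega), ht]

/-! ## Singular braids -/

/-- the list of a singular word is on `N` strands -/
def OkL (N : ℕ) (S : List (ℕ × Br)) : Prop := ∀ p ∈ S, p.1 + 1 < N ∧ p.2 ∈ BN N

theorem sinv_mem {i N : ℕ} (h : i + 1 < N) : (s i)⁻¹ ∈ BN N := inv_mem (s_mem_BN h)

theorem res_zero {A : Type} [AddCommGroup A] (S : List (ℕ × Br)) :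
    ∀ y, res (fun _ => (0 : A)) S y = 0 := by
  induction S with
  | nil => intro y; rfl
  | cons p S ih =>
    intro y
    obtain ⟨i, z⟩ := p
    change res _ S _ - res _ S _ = 0
    rw [ih, ih, sub_zero]

theorem res_map {A B : Type} [AddCommGroup A] [AddCommGroup B] (φ : A →+ B) (f : Br → A)
    (S : List (ℕ × Br)) : ∀ y, φ (res f S y) = res (fun b => φ (f b)) S y := by
  induction S with
  | nil => intro y; rfl
  | cons p S ih =>
    intro y
    obtain ⟨i, z⟩ := p
    change φ (res f S _ - res f S _) = res _ S _ - res _ S _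
    rw [map_sub, ih, ih]

theorem res_sub {A : Type} [AddCommGroup A] (f g : Br → A)
    (S : List (ℕ × Br)) : ∀ y, res (fun b => f b - g b) S y = res f S y - res g S y := by
  induction S with
  | nil => intro y; rfl
  | cons p S ih =>
    intro y
    obtain ⟨i, z⟩ := p
    change res _ S _ - res _ S _ = (res f S _ - res f S _) - (res g S _ - res g S _)
    rw [ih, ih]
    abel

/-- the positive resolution -/
def pw : List (ℕ × Br) → Br → Br
  | [], y => y
  | (i, z) :: S, y => pw S (y * s i * z)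

theorem pm_sinv (i : ℕ) : pm (s i)⁻¹ = pm (s i) := by
  rw [map_inv, pm_s, Equiv.swap_inv]

theorem pm_pw (S : List (ℕ × Br)) : ∀ y y', pm y = pm y' → pm (pw S y) = pm (pw S y') := by
  induction S with
  | nil => exact fun y y' h => h
  | cons p S ih =>
    intro y y' h
    obtain ⟨i, z⟩ := p
    change pm (pw S _) = pm (pw S _)
    exact ih _ _ (by rw [map_mul, map_mul, map_mul, map_mul, h])

theorem res_congr {A : Type} [AddCommGroup A] {N : ℕ} {f g : Br → A}
    (S : List (ℕ × Br)) : ∀ y, OkL N S → y ∈ BN N →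
    (∀ b ∈ BN N, pm b = pm (pw S y) → f b = g b) → res f S y = res g S y := by
  induction S with
  | nil => exact fun y _ hy h => h y hy rfl
  | cons p S ih =>
    intro y hS hy h
    obtain ⟨i, z⟩ := p
    obtain ⟨hi, hz⟩ := hS (i, z) List.mem_cons_self
    have hS' : OkL N S := fun p hp => hS p (List.mem_cons_of_mem _ hp)
    change res f S _ - res f S _ = res g S _ - res g S _
    rw [ih (y * s i * z) hS' (mul_mem (mul_mem hy (s_mem_BN hi)) hz) h,
      ih (y * (s i)⁻¹ * z) hS' (mul_mem (mul_mem hy (sinv_mem hi)) hz)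
        (fun b hb hb' => h b hb (hb'.trans (pm_pw S _ _ (by
          rw [map_mul, map_mul, map_mul, map_mul, pm_sinv]))))]

theorem pw_mem {N : ℕ} (S : List (ℕ × Br)) : ∀ y, OkL N S → y ∈ BN N → pw S y ∈ BN N := by
  induction S with
  | nil => exact fun y _ hy => hy
  | cons p S ih =>
    intro y hS hy
    obtain ⟨i, z⟩ := p
    obtain ⟨hi, hz⟩ := hS (i, z) List.mem_cons_self
    exact ih _ (fun p hp => hS p (List.mem_cons_of_mem _ hp))
      (mul_mem (mul_mem hy (s_mem_BN hi)) hz)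

/-- transformation of singular words by a homomorphism, with an appended word -/
theorem res_hom {N N' : ℕ} (ψ : Br →* Br) (hψ : ∀ y ∈ BN N, ψ y ∈ BN N')
    (hs : ∀ i, i + 1 < N → ∃ g ∈ BN N', ∃ j, j + 1 < N' ∧ ψ (s i) = g * s j * g⁻¹)
    (T : List (ℕ × Br)) (hT : OkL N' T) (u : Br) (hu : u ∈ BN N') (S : List (ℕ × Br)) :
    OkL N S → ∃ S' h, OkL N' S' ∧ S'.length = S.length + T.length ∧ h ∈ BN N' ∧
      ∀ (A : Type) [AddCommGroup A] (f : Br → A) (y : Br),
        res (fun b => res f T (ψ b * u)) S y = res f S' (ψ y * h) := by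
  induction S with
  | nil =>
    intro _
    exact ⟨T, u, hT, by simp, hu, fun A _ f y => rfl⟩
  | cons p S ih =>
    intro hS
    obtain ⟨i, z⟩ := p
    obtain ⟨hi, hz⟩ := hS (i, z) List.mem_cons_self
    obtain ⟨S', h, h1, h2, h3, h4⟩ := ih (fun p hp => hS p (List.mem_cons_of_mem _ hp))
    obtain ⟨g, hg, j, hj, hgj⟩ := hs i hi
    refine ⟨(j, g⁻¹ * ψ z * h) :: S', g, ?_, ?_, hg, ?_⟩
    · intro p hp
      rcases List.mem_cons.1 hp with rfl | hp
      · exact ⟨hj, mul_mem (mul_mem (inv_mem hg) (hψ z hz)) h3⟩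
      · exact h1 p hp
    · simp only [List.length_cons, h2]
      omega
    · intro A _ f y
      change res _ S _ - res _ S _ = res f S' _ - res f S' _
      rw [h4, h4]
      congr 2
      · rw [map_mul, map_mul, hgj]
        group
      · rw [map_mul, map_mul, map_inv, hgj]
        group

/-! ## Maps between the free abelian groups -/

theorem val_iff {m k : ℕ} {b b' : Br} (hb : b ∈ BN (m + k)) (hb' : b' ∈ BN (m + k))
    (h : pm b = pm b') : Val m ⟨k, b⟩ ↔ Val m ⟨k, b'⟩ := by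
  unfold Val
  simp only [hb, hb', h, true_and]

theorem cls_of_val {m : ℕ} {d : RD} (h : Val m d) : cls m d = uni (Quot.mk _ ⟨d, h⟩) := by
  unfold cls evS
  rw [dif_pos (show Val m ⟨d.k, d.b⟩ from h)]

theorem evS_eq_cls (m k : ℕ) (b : Br) : evS (m := m) uni k b = cls m ⟨k, b⟩ := rfl

theorem cls_of_not_val {m : ℕ} {d : RD} (h : ¬ Val m d) : cls m d = 0 := by
  unfold cls evS
  rw [dif_neg (show ¬ Val m ⟨d.k, d.b⟩ from h)]

theorem AA_ind {m : ℕ} {G : Type} [AddCommGroup G] {f g : AA m →+ G}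
    (h : ∀ d, Val m d → f (cls m d) = g (cls m d)) : f = g := by
  refine Finsupp.addHom_ext' fun x => ?_
  refine AddMonoidHom.ext_int ?_
  obtain ⟨d, rfl⟩ := Quot.exists_rep x
  have h1 := h d.1 d.2
  rw [cls_of_val d.2] at h1
  exact h1

/-- maps of diagrams which respect isotopies -/
theorem mk_map {m m' : ℕ} (F : RD → RD) (hV : ∀ d, Val m d → Val m' (F d))
    (hM : ∀ d e, Val m d → Val m e → Mv m d e → Mv m' (F d) (F e)) :
    ∃ φ : AA m →+ AA m', ∀ d, Val m d → φ (cls m d) = cls m' (F d) := by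
  refine ⟨Finsupp.mapDomain.addMonoidHom (Quot.map (fun d : SData m => (⟨F d.1, hV d.1 d.2⟩ :
    SData m')) (fun d e h => hM d.1 e.1 d.2 e.2 h)), fun d hd => ?_⟩
  rw [cls_of_val hd, cls_of_val (hV d hd)]
  exact Finsupp.mapDomain_single

/-- the generators of the filtration -/
theorem gen_mem {m k : ℕ} {S : List (ℕ × Br)} {y : Br} (hS : OkL (m + k) S) (hy : y ∈ BN (m + k)) :
    res (evS (m := m) uni k) S y ∈ J m S.length :=
  AddSubgroup.subset_closure ⟨k, S, y, ⟨hy, hS⟩, rfl, rfl⟩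

/-- a singular word is a combination of string links or vanishes -/
theorem gen_cases {m k : ℕ} {S : List (ℕ × Br)} {y : Br} (hS : OkL (m + k) S)
    (hy : y ∈ BN (m + k)) :
    (∀ b ∈ BN (m + k), pm b = pm (pw S y) → Val m ⟨k, b⟩) ∨
      res (evS (m := m) uni k) S y = 0 := by
  by_cases h : Val m ⟨k, pw S y⟩
  · left
    intro b hb hp
    exact (val_iff hb (pw_mem S y hS hy) hp).2 h
  · right
    rw [← res_zero (A := AA m) S y]
    apply res_congr (N := m + k) S y hS hy
    intro b hb hp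
    rw [evS_eq_cls]
    exact cls_of_not_val (fun h' => h ((val_iff hb (pw_mem S y hS hy) hp).1 h'))

theorem J_map {m m' : ℕ} (φ : AA m →+ AA m') (ψ : Br →* Br) (u : Br) (κ : ℕ → ℕ)
    (hφ : ∀ k b, Val m ⟨k, b⟩ → φ (cls m ⟨k, b⟩) = cls m' ⟨κ k, ψ b * u⟩)
    (hψ : ∀ k, ∀ y ∈ BN (m + k), ψ y ∈ BN (m' + κ k))
    (hs : ∀ k i, i + 1 < m + k → ∃ g ∈ BN (m' + κ k), ∃ j, j + 1 < m' + κ k ∧
      ψ (s i) = g * s j * g⁻¹)
    (hu : ∀ k, u ∈ BN (m' + κ k)) (D : ℕ) (x : AA m) (hx : x ∈ J m D) : φ x ∈ J m' D := by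
  have key : J m D ≤ (J m' D).comap φ := by
    refine (AddSubgroup.closure_le _).2 ?_
    rintro x ⟨k, S, y, hS, hD, rfl⟩
    change φ (res (evS (m := m) uni k) S y) ∈ J m' D
    rcases gen_cases hS.2 hS.1 with h | h
    · obtain ⟨S', h', h1, h2, h3, h4⟩ := res_hom ψ (hψ k) (hs k) [] (by
        intro p hp; exact absurd hp List.not_mem_nil) u (hu k) S hS.2
      have h5 : φ (res (evS (m := m) uni k) S y) =
          res (evS (m := m') uni (κ k)) S' (ψ y * h') := by
        rw [res_map, ← h4]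
        apply res_congr (N := m + k) S y hS.2 hS.1
        intro b hb hp
        rw [evS_eq_cls, hφ k b (h b hb hp)]
        rfl
      rw [h5]
      have h6 := gen_mem (m := m') (k := κ k) h1 (mul_mem (hψ k y hS.1) h3)
      rw [h2, List.length_nil, add_zero, hD] at h6
      exact h6
    · rw [h, map_zero]
      exact AddSubgroup.zero_mem _
  exact key hx

/-! ## Adding an open strand -/

theorem comm_BN_BC {m N : ℕ} {x g : Br} (hx : x ∈ BN m) (hg : g ∈ BC m N) : Commute x g :=
  comm_psiK' (m := m) (k := 0) hx hg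

theorem psi_mem_BC {m k : ℕ} {g : Br} (hg : g ∈ BC m (m + k)) :
    psi m g ∈ BC (m + 1) (m + 1 + k) := by
  refine bc_ind (P := fun g => psi m g ∈ BC (m + 1) (m + 1 + k)) ?_ ?_ ?_ ?_ g hg
  · intro i h h'
    rw [psi_ge h]
    exact s_mem_BC (by omega) (by omega)
  · rw [map_one]
    exact one_mem _
  · intro x y hx hy
    rw [map_mul]
    exact mul_mem hx hy
  · intro x hx
    rw [map_inv]
    exact inv_mem hx

theorem psi_mem {m k : ℕ} {y : Br} (hy : y ∈ BN (m + k)) : psi m y ∈ BN (m + 1 + k) := by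
  have := psi_mem_BN hy
  rwa [show m + k + 1 = m + 1 + k by omega] at this

theorem val_iot {m : ℕ} {d : RD} (h : Val m d) : Val (m + 1) (iot m d) := by
  refine ⟨psi_mem h.1, ?_⟩
  have h1 := ok_iot (p := pm d.b) (P := pm (psi m d.b)) (m := m) (N := m + d.k)
    (pm_psi_io m d.b) (pm_psi_m m d.b) (by omega) h.2
  rwa [show m + d.k + 1 = m + 1 + d.k by omega] at h1

/-- the value of `psi m` at the generator which is used for a stabilization -/
theorem psi_stab {m k : ℕ} (hm : 1 ≤ m) : ∃ v ∈ BN (m + 1 + k),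
    psi m (s (m + k - 1)) = v⁻¹ * s (m + 1 + k - 1) * v := by
  rcases Nat.eq_zero_or_pos k with h | h
  · subst h
    obtain ⟨i, rfl⟩ : ∃ i, m = i + 1 := ⟨m - 1, by omega⟩
    refine ⟨s i, s_mem_BN (by omega), ?_⟩
    rw [show i + 1 + 0 - 1 = i by omega, show i + 1 + 1 + 0 - 1 = i + 1 by omega, psi_eq]
    have hb := s_braid i
    rw [mul_inv_eq_iff_eq_mul, mul_assoc, mul_assoc, ← mul_assoc (s (i + 1)), ← hb]
    group
  · refine ⟨1, one_mem _, ?_⟩
    rw [psi_ge (by omega), show m + k - 1 + 1 = m + 1 + k - 1 by omega]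
    group

theorem mv_iot {m : ℕ} (hm : 1 ≤ m) {d e : RD} (h : Mv m d e) :
    Mv (m + 1) (iot m d) (iot m e) := by
  cases h with
  | conj k b g hg =>
    change Mv (m + 1) ⟨k, psi m b⟩ ⟨k, psi m (g * b * g⁻¹)⟩
    rw [map_mul, map_mul, map_inv]
    exact Mv.conj k _ _ (psi_mem_BC hg)
  | stab k x y h hx hy =>
    obtain ⟨v, hv, hv'⟩ := psi_stab (k := k) hm
    change Mv (m + 1) ⟨k, psi m (x * y)⟩ ⟨k + 1, psi m (x * s (m + k - 1) * y)⟩
    rw [map_mul, map_mul, map_mul, hv']
    have h1 := Mv.stab (m := m + 1) k (psi m x * v⁻¹) (v * psi m y) (by omega)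
      (mul_mem (psi_mem hx) (inv_mem hv)) (mul_mem hv (psi_mem hy))
    have e1 : psi m x * v⁻¹ * (v * psi m y) = psi m x * psi m y := by group
    have e2 : psi m x * v⁻¹ * s (m + 1 + k - 1) * (v * psi m y) =
      psi m x * (v⁻¹ * s (m + 1 + k - 1) * v) * psi m y := by group
    rwa [e1, e2] at h1
  | stabInv k x y h hx hy =>
    obtain ⟨v, hv, hv'⟩ := psi_stab (k := k) hm
    change Mv (m + 1) ⟨k, psi m (x * y)⟩ ⟨k + 1, psi m (x * (s (m + k - 1))⁻¹ * y)⟩
    rw [map_mul, map_mul, map_mul, map_inv, hv']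
    have h1 := Mv.stabInv (m := m + 1) k (psi m x * v⁻¹) (v * psi m y) (by omega)
      (mul_mem (psi_mem hx) (inv_mem hv)) (mul_mem hv (psi_mem hy))
    have e1 : psi m x * v⁻¹ * (v * psi m y) = psi m x * psi m y := by group
    have e2 : psi m x * v⁻¹ * (s (m + 1 + k - 1))⁻¹ * (v * psi m y) =
      psi m x * (v⁻¹ * s (m + 1 + k - 1) * v)⁻¹ * psi m y := by group
    rwa [e1, e2] at h1

/-- `psi m` maps the generators to conjugates of generators. -/
theorem psi_gen {m k i : ℕ} (hi : i + 1 < m + k) : ∃ g ∈ BN (m + 1 + k), ∃ j,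
    j + 1 < m + 1 + k ∧ psi m (s i) = g * s j * g⁻¹ := by
  rw [psi_s]
  split_ifs with h1 h2
  · exact ⟨1, one_mem _, i, by omega, by group⟩
  · exact ⟨s m, s_mem_BN (by omega), i, by omega, rfl⟩
  · exact ⟨1, one_mem _, i + 1, by omega, by group⟩

/-- **T12a.** -/
theorem t_IOT : S_IOT := by
  intro m hm
  obtain ⟨φ, hφ⟩ := mk_map (m := m) (m' := m + 1) (iot m) (fun d h => val_iot h)
    (fun d e _ _ h => mv_iot hm h)
  refine ⟨φ, fun d hd => ⟨val_iot hd, hφ d hd⟩, ?_⟩
  apply J_map φ (psi m) 1 (fun k => k)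
  · intro k b h
    rw [hφ _ h, mul_one]
    rfl
  · intro k y hy
    exact psi_mem hy
  · intro k i hi
    exact psi_gen hi
  · intro k
    exact one_mem _

/-! ## Closing an open strand -/

theorem val_kap {m i : ℕ} {c : Br} (hi : i < m) (hc : c ∈ BN (m + 1)) (hp : pm c = Equiv.swap i m)
    {d : RD} (h : Val (m + 1) d) : Val m (kap c d) := by
  refine ⟨?_, ?_⟩
  · change d.b * c ∈ BN (m + (d.k + 1))
    rw [show m + (d.k + 1) = m + 1 + d.k by omega]
    exact mul_mem h.1 (BN_mono (by omega) hc)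
  · change Ok m (m + (d.k + 1)) (pm (d.b * c))
    rw [show m + (d.k + 1) = m + 1 + d.k by omega, map_mul, hp]
    exact ok_swap (fun a ha => (pm_lt_iff h.1 a).2 ha) (by omega) hi h.2

theorem mv_kap {m : ℕ} {c : Br} (hc : c ∈ BN (m + 1)) {d e : RD} (h : Mv (m + 1) d e) :
    Mv m (kap c d) (kap c e) := by
  cases h with
  | conj k b g hg =>
    change Mv m ⟨k + 1, b * c⟩ ⟨k + 1, g * b * g⁻¹ * c⟩
    have h1 : Commute c g := comm_BN_BC hc hg
    have h2 : g * b * g⁻¹ * c = g * (b * c) * g⁻¹ := by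
      have h3 : g⁻¹ * c = c * g⁻¹ := (h1.inv_right).symm
      rw [mul_assoc, h3]
      group
    rw [h2]
    apply Mv.conj
    have h4 : BC (m + 1) (m + 1 + k) ≤ BC m (m + (k + 1)) :=
      Subgroup.closure_mono (by rintro x ⟨i, hm, hi, rfl⟩; exact ⟨i, by omega, by omega, rfl⟩)
    exact h4 hg
  | stab k x y h hx hy =>
    change Mv m ⟨k + 1, x * y * c⟩ ⟨k + 1 + 1, x * s (m + 1 + k - 1) * y * c⟩
    have e : m + 1 + k = m + (k + 1) := by omega
    have hc' : c ∈ BN (m + (k + 1)) := BN_mono (by omega) hc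
    rw [e] at hx hy ⊢
    rw [mul_assoc x y, mul_assoc (x * _) y]
    exact Mv.stab (k + 1) x (y * c) (by omega) hx (mul_mem hy hc')
  | stabInv k x y h hx hy =>
    change Mv m ⟨k + 1, x * y * c⟩ ⟨k + 1 + 1, x * (s (m + 1 + k - 1))⁻¹ * y * c⟩
    have e : m + 1 + k = m + (k + 1) := by omega
    have hc' : c ∈ BN (m + (k + 1)) := BN_mono (by omega) hc
    rw [e] at hx hy ⊢
    rw [mul_assoc x y, mul_assoc (x * _) y]
    exact Mv.stabInv (k + 1) x (y * c) (by omega) hx (mul_mem hy hc')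

/-- **T12b.** -/
theorem t_KAP : S_KAP := by
  intro m i c hi hc hp
  obtain ⟨φ, hφ⟩ := mk_map (m := m + 1) (m' := m) (kap c) (fun d h => val_kap hi hc hp h)
    (fun d e _ _ h => mv_kap hc h)
  refine ⟨φ, fun d hd => ⟨val_kap hi hc hp hd, hφ d hd⟩, ?_⟩
  have e : ∀ k, m + (k + 1) = m + 1 + k := fun k => by omega
  apply J_map φ (MonoidHom.id Br) c (fun k => k + 1)
  · intro k b h
    exact hφ _ h
  · intro k y hy
    change y ∈ BN (m + (k + 1))
    rw [e]
    exact hy
  · intro k i hi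
    refine ⟨1, one_mem _, i, ?_, ?_⟩
    · omega
    · change s i = 1 * s i * 1⁻¹
      group
  · intro k
    exact BN_mono (by omega) hc

/-! ## Adding and closing a strand -/

/-- `(σ_m ⋯ σ_{m+k-1})⁻¹ σ_{m-1} (σ_m ⋯ σ_{m+k-1})` is a conjugate of `σ_{m+k-1}`. -/
theorem conj_up (a : ℕ) : ∀ k, (up (a + 1) k)⁻¹ * s a * up (a + 1) k =
    up a k * s (a + k) * (up a k)⁻¹ := by
  intro k
  induction k with
  | zero => rw [up_zero, up_zero, add_zero]; group
  | succ k ih =>
    rw [up_succ (a + 1) k, up_succ a k]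
    have h1 : (up (a + 1) k * s (a + 1 + k))⁻¹ * s a * (up (a + 1) k * s (a + 1 + k)) =
        (s (a + 1 + k))⁻¹ * ((up (a + 1) k)⁻¹ * s a * up (a + 1) k) * s (a + 1 + k) := by group
    rw [h1, ih]
    have h2 : Commute (s (a + 1 + k)) (up a k) :=
      comm_up (fun j hj hj' => comm_s (Or.inr (by omega)))
    have h3 : (s (a + 1 + k))⁻¹ * (up a k * s (a + k) * (up a k)⁻¹) * s (a + 1 + k) =
        up a k * ((s (a + 1 + k))⁻¹ * s (a + k) * s (a + 1 + k)) * (up a k)⁻¹ := by
      have h4 : (s (a + 1 + k))⁻¹ * up a k = up a k * (s (a + 1 + k))⁻¹ := h2.inv_left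
      have h5 : (up a k)⁻¹ * s (a + 1 + k) = s (a + 1 + k) * (up a k)⁻¹ := h2.symm.inv_left
      calc (s (a + 1 + k))⁻¹ * (up a k * s (a + k) * (up a k)⁻¹) * s (a + 1 + k)
          = ((s (a + 1 + k))⁻¹ * up a k) * s (a + k) * ((up a k)⁻¹ * s (a + 1 + k)) := by group
        _ = (up a k * (s (a + 1 + k))⁻¹) * s (a + k) * (s (a + 1 + k) * (up a k)⁻¹) := by
          rw [h4, h5]
        _ = _ := by group
    rw [h3]
    have hb := s_braid (a + k)
    rw [show a + k + 1 = a + 1 + k by omega] at hb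
    have h6 : (s (a + 1 + k))⁻¹ * s (a + k) * s (a + 1 + k) =
        s (a + k) * s (a + 1 + k) * (s (a + k))⁻¹ := by
      rw [eq_mul_inv_iff_mul_eq, mul_assoc, mul_assoc, ← mul_assoc (s (a + k)), hb]
      group
    rw [h6, show a + (k + 1) = a + 1 + k by omega]
    group

theorem pm_ge {N : ℕ} {b : Br} (hb : b ∈ BN N) : ∀ a, N ≤ a → pm b a = a := by
  refine bn_ind (P := fun b => ∀ a, N ≤ a → pm b a = a) ?_ ?_ ?_ ?_ b hb
  · intro i hi a ha
    rw [pm_s]
    exact Equiv.swap_apply_of_ne_of_ne (by omega) (by omega)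
  · intro a _
    simp
  · intro x y hx hy a ha
    rw [map_mul, Equiv.Perm.mul_apply, hy a ha, hx a ha]
  · intro x hx a ha
    apply (pm x).injective
    rw [← Equiv.Perm.mul_apply, ← map_mul, mul_inv_cancel, map_one, hx a ha]
    rfl

theorem up_mem_BN {i t N : ℕ} (hN : i + t < N) : up i t ∈ BN N := by
  have h := up_mem_BC (m := 0) (Nat.zero_le i) hN
  have h1 : BC 0 N ≤ BN N := Subgroup.closure_mono (by rintro x ⟨i, _, hi, rfl⟩; exact ⟨i, hi, rfl⟩)
  exact h1 h

theorem pm_up (i : ℕ) : ∀ t, pm (up i t) (i + t) = i := by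
  intro t
  induction t with
  | zero => rw [up_zero, map_one]; rfl
  | succ t ih =>
    rw [up_succ, map_mul, Equiv.Perm.mul_apply, pm_s, ← add_assoc, Equiv.swap_apply_right, ih]

/-- a braid which exchanges the open strand `i` and the strand `m` -/
theorem exists_c0 {m i : ℕ} (hi : i < m) : ∃ w ∈ BN m,
    pm (w * s (m - 1) * w⁻¹) = Equiv.swap i m := by
  have h0 : up i (m - 1 - i) ∈ BN m := up_mem_BN (by omega)
  refine ⟨up i (m - 1 - i), h0, ?_⟩
  have h1 := pm_up i (m - 1 - i)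
  rw [show i + (m - 1 - i) = m - 1 by omega] at h1
  have h2 := pm_ge h0 m (le_refl m)
  rw [map_mul, map_mul, map_inv, pm_s, show m - 1 + 1 = m by omega, ← Equiv.swap_apply_apply, h1, h2]

theorem cls_eq_of_mv {m : ℕ} {d e : RD} (hd : Val m d) (he : Val m e) (h : Mv m d e) :
    cls m d = cls m e := by
  rw [cls_of_val hd, cls_of_val he]
  congr 1
  exact Quot.sound h

/-- closing the new strand with a simple braid does not change the string link -/
theorem cls_c0 (hM : S_MUL) {m k : ℕ} {b w : Br} (hm : 1 ≤ m) (hw : w ∈ BN m)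
    (h : Val m ⟨k, b⟩) : cls m ⟨k + 1, psi m b * (w * s (m - 1) * w⁻¹)⟩ = cls m ⟨k, b⟩ := by
  have hb : b ∈ BN (m + k) := h.1
  obtain ⟨a, rfl⟩ : ∃ a, m = a + 1 := ⟨m - 1, by omega⟩
  have ea : a + 1 - 1 = a := by omega
  rw [ea]
  set W := up (a + 1) k with hW
  set v := up a k with hv
  have hWm : W ∈ BC (a + 1) (a + 1 + (k + 1)) := up_mem_BC (le_refl _) (by omega)
  have hvm : v ∈ BN (a + 1 + k) := up_mem_BN (by omega)
  have hwm : w ∈ BN (a + 1 + k) := BN_mono (by omega) hw
  have hψ : psi (a + 1) b = W * b * W⁻¹ := by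
    have := psiK_conj (m := a + 1) (k := 0) (k' := k) (y := b) hb
    rw [psiK_succ, psiK_zero, add_zero] at this
    exact this
  -- the stabilization
  have h1 : Mv (a + 1) ⟨k, b⟩ ⟨k + 1, (b * w * v) * s (a + 1 + k - 1) * (v⁻¹ * w⁻¹)⟩ := by
    have := Mv.stab (m := a + 1) k (b * w * v) (v⁻¹ * w⁻¹) (by omega)
      (mul_mem (mul_mem hb hwm) hvm) (mul_mem (inv_mem hvm) (inv_mem hwm))
    have e : b * w * v * (v⁻¹ * w⁻¹) = b := by group
    rwa [e] at this
  have hv1 := hM.2.1 (a + 1) _ _ h h1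
  -- the conjugation
  have h2 : Mv (a + 1) ⟨k + 1, (b * w * v) * s (a + 1 + k - 1) * (v⁻¹ * w⁻¹)⟩
      ⟨k + 1, W * ((b * w * v) * s (a + 1 + k - 1) * (v⁻¹ * w⁻¹)) * W⁻¹⟩ := Mv.conj (k + 1) _ W hWm
  have hv2 := hM.2.1 (a + 1) _ _ hv1 h2
  rw [cls_eq_of_mv h hv1 h1, cls_eq_of_mv hv1 hv2 h2]
  congr 2
  rw [hψ, show a + 1 + k - 1 = a + k by omega]
  have h3 := conj_up a k
  rw [← hW, ← hv] at h3
  have h4 : Commute w W := comm_BN_BC hw (up_mem_BC (N := a + 1 + k + 1) (le_refl _) (by omega))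
  have e1 : b * w * v * s (a + k) * (v⁻¹ * w⁻¹) = b * w * (v * s (a + k) * v⁻¹) * w⁻¹ := by group
  rw [e1, ← h3]
  have e2 : w * W⁻¹ = W⁻¹ * w := h4.inv_right
  have e3 : W * w⁻¹ = w⁻¹ * W := (h4.inv_left).symm
  calc W * b * W⁻¹ * (w * s a * w⁻¹)
      = W * b * (W⁻¹ * w) * s a * (w⁻¹ * W) * W⁻¹ := by group
    _ = W * b * (w * W⁻¹) * s a * (W * w⁻¹) * W⁻¹ := by rw [e2, e3]
    _ = W * (b * w * (W⁻¹ * s a * W) * w⁻¹) * W⁻¹ := by group

theorem res_swap {A : Type} [AddCommGroup A] (ψ : Br →* Br) (F : Br → A) (S : List (ℕ × Br))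
    (y : Br) (T : List (ℕ × Br)) : ∀ u,
    res (fun u => res (fun b => F (ψ b * u)) S y) T u = res (fun b => res F T (ψ b * u)) S y := by
  induction T with
  | nil => exact fun u => rfl
  | cons p T ih =>
    intro u
    obtain ⟨j, z⟩ := p
    change res _ T _ - res _ T _ = res (fun b => res F T (ψ b * u * s j * z) -
      res F T (ψ b * u * (s j)⁻¹ * z)) S y
    rw [ih, ih, ← res_sub]
    simp only [mul_assoc]

/-- **T12c.** -/
theorem t_KI (hM : S_MUL) (hG : S_GAMI) : S_KI := by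
  intro m i c hi hc hp φ hφ D x hx
  have hm : 1 ≤ m := by omega
  obtain ⟨w, hw, hwp⟩ := exists_c0 hi
  set c0 := w * s (m - 1) * w⁻¹ with hc0
  have hc0m : c0 ∈ BN (m + 1) := by
    have h1 := BN_mono (show m ≤ m + 1 by omega) hw
    exact mul_mem (mul_mem h1 (s_mem_BN (by omega))) (inv_mem h1)
  have key : J m D ≤ (J m (D + 1)).comap (φ - AddMonoidHom.id _) := by
    refine (AddSubgroup.closure_le _).2 ?_
    rintro x ⟨k, S, y, hS, hD, rfl⟩
    change φ (res (evS (m := m) uni k) S y) - res (evS (m := m) uni k) S y ∈ J m (D + 1)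
    rcases gen_cases hS.2 hS.1 with h | h
    · have hBN : BN (m + 1) ≤ BN (m + (k + 1)) := BN_mono (by omega)
      have h1 : φ (res (evS (m := m) uni k) S y) =
          res (fun b => evS (m := m) uni (k + 1) (psi m b * c)) S y := by
        rw [res_map]
        apply res_congr (N := m + k) S y hS.2 hS.1
        intro b hb hb'
        rw [evS_eq_cls, hφ _ (h b hb hb')]
        rfl
      have h2 : res (evS (m := m) uni k) S y =
          res (fun b => evS (m := m) uni (k + 1) (psi m b * c0)) S y := by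
        apply res_congr (N := m + k) S y hS.2 hS.1
        intro b hb hb'
        rw [evS_eq_cls, evS_eq_cls]
        exact (cls_c0 hM hm hw (h b hb hb')).symm
      rw [h1, h2]
      have h3 := hG (m + (k + 1)) 0 (AA m ⧸ J m (D + 1))
        (fun u => QuotientAddGroup.mk (res (fun b => evS (m := m) uni (k + 1) (psi m b * u)) S y))
        ?_ c0 (hBN hc0m) (c0⁻¹ * c) ?_
      · have h4 : c0 * (c0⁻¹ * c) = c := by group
        rw [h4] at h3
        have h5 := QuotientAddGroup.eq.1 h3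
        have h6 := AddSubgroup.neg_mem _ h5
        rwa [neg_add_rev, neg_neg, neg_add_eq_sub] at h6
      · intro T u hT hTl
        obtain ⟨S', h', g1, g2, g3, g4⟩ := res_hom (N := m + k) (N' := m + (k + 1)) (psi m) (by
            intro y hy
            rw [show m + (k + 1) = m + 1 + k by omega]
            exact psi_mem hy) (by
            intro i hi
            rw [show m + (k + 1) = m + 1 + k by omega]
            exact psi_gen hi) T hT.2 u hT.1 S hS.2
        have h4 : res (fun u => (QuotientAddGroup.mk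
            (res (fun b => evS (m := m) uni (k + 1) (psi m b * u)) S y) : AA m ⧸ J m (D + 1))) T u =
            QuotientAddGroup.mk' (J m (D + 1))
              (res (fun u => res (fun b => evS (m := m) uni (k + 1) (psi m b * u)) S y) T u) := by
          rw [res_map]
          rfl
        rw [h4, res_swap, g4]
        apply (QuotientAddGroup.eq_zero_iff _).2
        have h5 := gen_mem (m := m) (k := k + 1) g1 (mul_mem (by
          rw [show m + (k + 1) = m + 1 + k by omega]
          exact psi_mem hS.1) g3)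
        rw [g2, hD, hTl] at h5
        exact h5
      · change c0⁻¹ * c ∈ pm.ker ⊓ BN (m + (k + 1))
        refine Subgroup.mem_inf.2 ⟨?_, mul_mem (inv_mem (hBN hc0m)) (hBN hc)⟩
        rw [MonoidHom.mem_ker, map_mul, map_inv, hwp, hp, inv_mul_cancel]
    · rw [h, map_zero, sub_zero]
      exact AddSubgroup.zero_mem _
  exact key hx

/-- **T12d.** -/
theorem t_HOP (hM : S_MUL) (hI : S_IOT) (hK : S_KAP) (hKI : S_KI) (hB : S_BIL) (hJ : S_JE)
    (hBase : S_BASE) : S_HOP := by
  intro m i c G hi hc hp hG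
  have hm : 1 ≤ m := by omega
  obtain ⟨ι, hι, hιJ⟩ := hI m hm
  obtain ⟨κ, hκ, hκJ⟩ := hK m i c hi hc hp
  obtain ⟨B, hB1, hB2⟩ := hB (m + 1) (by omega)
  have hone : Val (m + 1) one := by
    refine ⟨one_mem _, ?_, ?_⟩
    · intro a ha
      exact ⟨a, by simpa [one] using ha, Equiv.Perm.SameCycle.refl _ _⟩
    · rintro a ha b hb ⟨t, ht⟩
      simpa [one] using ht
  have hmo : ∀ d, mul (m + 1) one d = d := by
    intro d
    obtain ⟨k, b⟩ := d
    change (⟨0 + k, 1 * b⟩ : RD) = ⟨k, b⟩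
    rw [zero_add, one_mul]
  have hBone : ∀ x, B (cls (m + 1) one) x = x := by
    have : B (cls (m + 1) one) = AddMonoidHom.id _ := by
      apply AA_ind
      intro d hd
      rw [hB1 _ _ hone hd, hmo]
      rfl
    intro x
    rw [this]
    rfl
  refine ⟨κ.comp ((B (cls (m + 1) G)).comp ι), ?_, ?_⟩
  · intro d hd
    obtain ⟨h1, h2⟩ := hι d hd
    have h3 : B (cls (m + 1) G) (cls (m + 1) (iot m d)) = cls (m + 1) (mul (m + 1) G (iot m d)) :=
      hB1 _ _ hG h1
    have h4 : Val (m + 1) (mul (m + 1) G (iot m d)) := hM.1 (m + 1) _ _ hG h1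
    obtain ⟨h5, h6⟩ := hκ _ h4
    refine ⟨h5, ?_⟩
    change κ (B (cls (m + 1) G) (ι (cls m d))) = _
    rw [h2, h3, h6]
    rfl
  · intro D x hx
    have h1 : (κ.comp ((B (cls (m + 1) G)).comp ι)) x - x =
        κ (B (cls (m + 1) G - cls (m + 1) one) (ι x)) + (κ (ι x) - x) := by
      change κ (B (cls (m + 1) G) (ι x)) - x = _
      rw [map_sub, AddMonoidHom.sub_apply, hBone, map_sub]
      abel
    rw [h1]
    apply AddSubgroup.add_mem
    · have h2 := hJ.2.2.2 (m + 1) 0 G one (hBase (m + 1) G (by omega) hG)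
      have h3 := hB2 _ _ _ _ h2 (hιJ D x hx)
      have h4 := hκJ _ _ h3
      rwa [show 0 + 1 + D = D + 1 by omega] at h4
    · refine hKI m i c hi hc hp (κ.comp ι) ?_ D x hx
      intro d hd
      obtain ⟨h1, h2⟩ := hι d hd
      change κ (ι (cls m d)) = _
      rw [h2, (hκ _ h1).2]

end Pool.Agent.K1H43.LK
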